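import Pool.Agent.H70.RW.All

/-!
# The relativizing consequences of Σ_k ⊆ BQP and of PH ⊆ BQP are exactly those of BQP^(Σ_k) and BQP^PH, and
there are none for the classical classes
-/

set_option autoImplicit false

namespace Pool.Agent.Results.MP_0f8dca_lc.RelativizingConsequences

open Filter
open Pool.Agent.H6.NB (QAlg)
open Pool.Agent.H70.OQ (Machine)
open Pool.Agent.H78.XQ (exact)
open Pool.Agent.H70.RC (sec Right RightP)
open Pool.Agent.H70.RK (Adp Qst EasyK EasyKP sbs MajAt Ac)
open Pool.Agent.H70.RW

/-- Let `κ i ≥ 1` be the levels of the machines. If `κ i = k` for all `i` then the theorem is about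
`Σ_k ⊆ BQP` (for `k = 1` about `NP ⊆ BQP`); if every number is some `κ i` then it is about `PH ⊆ BQP`.

First, the quantum algorithm `exact s` has `6` rounds of parallel queries, and in each round it queries
at most `4 * 10 ^ 9 * (|s| + 1) ^ 4` strings, which have at most this length.

Second, let `f n` be a partial Boolean function of the truth tables `X : {0,1}^n → {0,1}`, with non-empty
domain, for every `n`. (`f n X = none` means that `X` is not in the domain.) Let

* `V 0, V 1, …` be oracle machines, `V i` a `Σ_(κ i)` machine (for instance all uniform ones);
* `τ 0, τ 1, …` be arbitrary properties of the oracle, where `τ j n O` depends only on the values of `O` at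
  strings of length at most `n ^ c + c`, with `c` depending on `j` (for instance: a given machine of whatever
  kind — unbounded error, parity, counting, polynomial space, interactive — with queries of polynomial length
  decides whether `X` has some property, or solves some search problem, where `X` is the section number `n`
  of `O`);
* `Q 0, Q 1, …` be families of quantum query algorithms (for instance all uniform ones of polynomial time);
* `R 0, R 1, …` be families of sets of quantum query algorithms (for instance `R j n` is the set of the
  algorithms which one gets from a quantum verifier of polynomial time by fixing a quantum witness, or the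
  strategies of one or several entangled provers with whom it communicates);
* `W 0, W 1, …` be families of functions of the oracle which are computed by formulas of constant depth and
  size `2 ^ (n ^ c + c)` (for instance all machines of the polynomial hierarchy on the input `0ⁿ`);
* `S 0, S 1, …` be arbitrary sets of natural numbers.

The algorithms make at most `n ^ c + c` queries, all queries have length at most `n ^ c + c`, where `c`
depends on `j`. Then there is ONE oracle `O`, whose sections `sec O n` (the truth table of `w ↦ O (0 w)`,
`|w| = n`) are in the domain of `f n` for all `n`, such that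

* all the languages are in `EQP` relative to `O`: one explicit quantum algorithm decides WITHOUT ERROR all
languages of the machines `V i` relative to `O`. Its acceptance probability `yesW O (inw (V i).c i x)` is `1`
or `0`: it finds an address `a` of `4 |s| ^ 2` bits, `s = inw (V i).c i x`, by the exact algorithms
`exact (hmw s i j)`, one for each bit, and asks whether `arrp s (flat a)` belongs to the oracle; for every `i`
the lengths of all these strings are polynomial in `|x|`;
* if `τ j n O` holds for almost all `n ∈ S j`, then for some `i` and `c` and almost all `n ∈ S j` there are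
`2 ^ n + 1` simulated oracles, whose answers are computed from `X` with cost `n ^ c + c` in P^(Σ_(κ i)) in the
query model, such that for every `X` in the domain of `f n` at least 99 percent of them have the section `X`
and the property `τ j n` (`SimK`). So the knowledge of `O` is worth nothing but randomness, advice and a
`Σ_(κ i)` oracle: if `f` is in `𝒞` relative to `O` then it is in (non-uniform) `BP 𝒞^(Σ_(κ i))` in the query
model, for every class `𝒞`;
* for quantum algorithms: if `Q j` computes `f n (sec O n)` with error at most `1/3` for almost all
`n ∈ S j`, then for some `i` and `c` and almost all `n ∈ S j` the function `f n` is computed with cost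
`n ^ c + c` by a quantum algorithm with an oracle for functions in P^(Σ_(κ i)) (`EasyK`), that is, `f` is in
`BQP^(Σ_(κ i))` in the query model;
* the same for the sets `R j n` and `EasyKP`;
* if `W j n O = f n (sec O n)` for almost all `n ∈ S j`, then for almost all `n ∈ S j` the function `f n` is
computed with error `1/100` by `W j n` with one of `2 ^ n + 1` substitutions of constants and bits of `X` for
the bits of the oracle, chosen at random (`MajAt`). So a classical machine gains nothing but randomness and
advice: if `f` is in `P`, `NP`, `Σ_l`, … relative to `O` then it is in (non-uniform) `BPP`, `BP NP`,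
`BP Σ_l`, … in the query model.

By the sets `S j` one oracle serves for all classes and all functions at once. (The converse of the third
item is well known: if `Σ_k ⊆ BQP` then `BQP^(Σ_k) ⊆ BQP^BQP = BQP`, relative to all oracles.) -/
theorem result (κ : ℕ → ℕ) (hκ : ∀ i, 1 ≤ κ i) :
    (∀ s : List Bool, (exact s).T = 6 ∧ (exact s).Small (4 * 10 ^ 9 * (s.length + 1) ^ 4)) ∧
    ∀ f : (n : ℕ) → ((Fin n → Bool) → Bool) → Option Bool, (∀ n, ∃ X, f n X ≠ none) →
      ∀ (V : (i : ℕ) → Machine (κ i)) (τ : ℕ → ℕ → (List Bool → Bool) → Prop) (Q : ℕ → ℕ → QAlg)
        (R : ℕ → ℕ → Set QAlg) (W : ℕ → ℕ → (List Bool → Bool) → Bool) (S : ℕ → Set ℕ),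
      (∀ j, ∃ c, ∀ n O O', (∀ w : List Bool, w.length ≤ n ^ c + c → O w = O' w) →
        τ j n O → τ j n O') →
      (∀ j, ∃ c, ∀ n, (Q j n).T ≤ n ^ c + c ∧ (Q j n).Short (n ^ c + c)) →
      (∀ j, ∃ c, ∀ n, ∀ A ∈ R j n, A.T ≤ n ^ c + c ∧ A.Short (n ^ c + c)) →
      (∀ j, ∃ d c, ∀ n, Ac d (n ^ c + c) (W j n)) →
      ∃ O : List Bool → Bool, (∀ n, f n (sec O n) ≠ none) ∧
        (∀ i x, (x ∈ (V i).lang O → yesW O (inw (V i).c i x) = 1) ∧
          (x ∉ (V i).lang O → yesW O (inw (V i).c i x) = 0)) ∧
        (∀ j, (∀ᶠ n in atTop, n ∈ S j → τ j n O) →
          ∃ i c, ∀ᶠ n in atTop, n ∈ S j → SimK (κ i) n (n ^ c + c) (τ j n) (f n)) ∧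
        (∀ j, (∀ᶠ n in atTop, n ∈ S j → Right (Q j n) O (f n (sec O n))) →
          ∃ i c, ∀ᶠ n in atTop, n ∈ S j → EasyK (κ i) n (n ^ c + c) (f n)) ∧
        (∀ j, (∀ᶠ n in atTop, n ∈ S j → RightP (R j n) O (f n (sec O n))) →
          ∃ i c, ∀ᶠ n in atTop, n ∈ S j → EasyKP (κ i) n (n ^ c + c) (f n)) ∧
        (∀ j, (∀ᶠ n in atTop, n ∈ S j → f n (sec O n) = some (W j n O)) →
          ∀ᶠ n in atTop, n ∈ S j → MajAt n (W j n) (f n)) :=
  ⟨Pool.Agent.H78.XQ.pf_SIZ, fun f hf V τ Q R W S hτ hQ hR hW =>
    all_FNU κ hκ f hf V τ Q R W S hτ hQ hR hW⟩

end Pool.Agent.Results.MP_0f8dca_lc.RelativizingConsequences
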